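import Mathlib
import Pool.Agent.Lib.MP_770f2c_al.Defs
import Pool.Agent.Lib.MP_770f2c_al.Dim

/-!
# All maps `X` with `X V*_i ⊆ V*_0 + ... + V*_(i-1)` and `X V_i ⊆ V_(i-1) + V_i + V_(i+1)`

This answers Q1 of `MP_770f2c_al`, for an arbitrary tridiagonal pair `A, B = A*` over an arbitrary
field. All the definitions used in the statement are in `Pool/Agent/Lib/MP_770f2c_al/Defs.lean`.

`V` is the direct sum of the subspaces `τ_ij(A) K_i`, `0 ≤ i ≤ j ≤ d - i`, where
`K_i = (V*_0 + ... + V*_i) ∩ (V_i + ... + V_(d-i))`, and the solutions are the maps which send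
`τ_ij(A) v`, for `v ∈ K_i`, to
`a_ij τ_i,j-1(A) α_i(v) + b_ij τ_i-1,j-1(A) β_i(v) + g_ij τ_i+1,j-1(A) γ_i(v)`
for arbitrary linear maps `α_i : K_i → K_i`, `β_i : K_i → K_(i-1)`, `γ_i : K_i → K_(i+1)` and
explicit scalars `a_ij`, `b_ij`, `g_ij`.
-/

namespace Pool.Agent.Results.MP_770f2c_al.AllSolutions

open Pool.Agent.MP_770f2c_al

theorem result {K V : Type*} [Field K] [AddCommGroup V] [Module K V] [FiniteDimensional K V]
    {A B : Module.End K V} {d : ℕ} {th ths : ℕ → K} (T : IsTridiagonalPair A B d th ths) :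
    (∀ α β γ, ∃! X, IsGivenBy A d th (KK A B d th ths) α β γ X) ∧
    (∀ X, IsSolution A B d th ths X ↔
      ∃ α β γ, IsGivenBy A d th (KK A B d th ths) α β γ X) ∧
    (∀ X α β γ α' β' γ', IsGivenBy A d th (KK A B d th ths) α β γ X →
      IsGivenBy A d th (KK A B d th ths) α' β' γ' X →
      (∀ i, 2 * i < d → α i = α' i) ∧ (∀ i, i ≠ 0 → β i = β' i) ∧ (∀ i, γ i = γ' i)) ∧
    Module.finrank K (solutionSpace A B d th ths) =
      ∑ i ∈ Finset.range ((d + 1) / 2), Module.finrank K (KK A B d th ths i) ^ 2 +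
      2 * ∑ i ∈ Finset.range (d / 2), Module.finrank K (KK A B d th ths i) *
        Module.finrank K (KK A B d th ths (i + 1)) := by
  obtain ⟨h1, h2, h3⟩ := main T
  exact ⟨h1, h2, h3, finrank_solutionSpace T⟩

end Pool.Agent.Results.MP_770f2c_al.AllSolutions
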